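import Mathlib

set_option autoImplicit false

namespace Pool.Agent.Results.MP_48b99b_co.EveryCountAttained

section Defs
variable {V : Type*}

/-- `e(v, S)`: the number of neighbours of `v` in `S`. -/
noncomputable def nbrsIn (G : SimpleGraph V) (v : V) (S : Set V) : ℕ :=
  {u | G.Adj v u ∧ u ∈ S}.ncard

/-- The degree of `v`. -/
noncomputable def deg (G : SimpleGraph V) (v : V) : ℕ := {u | G.Adj v u}.ncard

/-- FAT `k`-colourings. -/
def IsFAT (G : SimpleGraph V) {k : ℕ} (c : V → Fin k) : Prop :=
  ∃ α : ℝ, 0 ≤ α ∧ α ≤ 1 ∧ ∀ (v : V) (i : Fin k),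
    (c v ≠ i → (nbrsIn G v {u | c u = i} : ℝ) = α * deg G v) ∧
    (c v = i → (nbrsIn G v {u | c u = i} : ℝ) = (1 - ((k : ℝ) - 1) * α) * deg G v)

/-- The partitions of `V` into the nonempty colour classes of FAT colourings. -/
def IsFATPartition (G : SimpleGraph V) (P : Setoid V) : Prop :=
  ∃ (k : ℕ) (c : V → Fin k), IsFAT G c ∧ Setoid.ker c = P

/-- Irreducible: no FAT partition is strictly finer. -/
def IsIrreducible (G : SimpleGraph V) (P : Setoid V) : Prop :=
  IsFATPartition G P ∧ ∀ Q : Setoid V, IsFATPartition G Q → Q ≤ P → Q = P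

/-- Irreducible FAT partitions up to automorphisms of `G`. -/
def orbitSetoid (G : SimpleGraph V) : Setoid {P : Setoid V // IsIrreducible G P} where
  r P Q := ∃ σ : G ≃g G, ∀ u w : V, P.1 u w ↔ Q.1 (σ u) (σ w)
  iseqv := by
    refine ⟨?_, ?_, ?_⟩
    · intro P
      exact ⟨SimpleGraph.Iso.refl, fun u w => Iff.rfl⟩
    · rintro P Q ⟨σ, hσ⟩
      refine ⟨σ.symm, fun u w => ?_⟩
      rw [hσ (σ.symm u) (σ.symm w)]
      simp
    · rintro P Q R ⟨σ, hσ⟩ ⟨τ, hτ⟩
      exact ⟨σ.trans τ, fun u w => (hσ u w).trans (hτ (σ u) (σ w))⟩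

/-- The number of irreducible FAT colourings of `G`. -/
noncomputable def numIrreducible (G : SimpleGraph V) : ℕ := Nat.card (Quotient (orbitSetoid G))

end Defs

/-- The vertex set: a centre `none` and `m` gadgets with four vertices each. -/
abbrev W (m : ℕ) := Option (Fin m × Fin 4)

/-- Adjacency inside a gadget. -/
def tab : Fin 4 → Fin 4 → Bool :=
  ![![false, true, true, true], ![true, false, false, false],
    ![true, false, false, true], ![true, false, true, false]]

/-- Adjacency. -/
def adj (m : ℕ) : W m → W m → Prop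
  | none, none => False
  | none, some (_, t) => t = 0 ∨ t = 1
  | some (_, t), none => t = 0 ∨ t = 1
  | some (i, s), some (j, t) => i = j ∧ tab s t = true

/-- The graph. -/
def Gr (m : ℕ) : SimpleGraph (W m) where
  Adj := adj m
  symm := by
    constructor
    intro u v h
    rcases u with _ | ⟨i, s⟩ <;> rcases v with _ | ⟨j, t⟩
    · exact h
    · exact h
    · exact h
    · obtain ⟨h1, h2⟩ := h
      refine ⟨h1.symm, ?_⟩
      have : ∀ s t : Fin 4, tab s t = true → tab t s = true := by decide
      exact this s t h2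
  loopless := by
    constructor
    intro u h
    rcases u with _ | ⟨i, s⟩
    · exact h
    · obtain ⟨h1, h2⟩ := h
      have : ∀ s : Fin 4, tab s s = true → False := by decide
      exact this s h2

open Classical in
/-- indicator -/
noncomputable def ind {m : ℕ} (S : Set (W m)) (u : W m) : ℕ := if u ∈ S then 1 else 0

open Classical in
lemma nbrsIn_eq {m : ℕ} (v : W m) (S : Set (W m)) :
    nbrsIn (Gr m) v S = (if adj m v none then ind S none else 0) +
      ∑ i : Fin m, ∑ t : Fin 4, if adj m v (some (i, t)) then ind S (some (i, t)) else 0 := by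
  unfold nbrsIn
  rw [Set.ncard_eq_toFinset_card', Set.toFinset_ofPred, Finset.card_filter, Fintype.sum_option,
    Fintype.sum_prod_type]
  congr 1
  · by_cases h : adj m v none
    · simp [Gr, h, ind]
    · simp [Gr, h]
  · refine Finset.sum_congr rfl ?_
    intro i _
    refine Finset.sum_congr rfl ?_
    intro t _
    by_cases h : adj m v (some (i, t))
    · simp [Gr, h, ind]
    · simp [Gr, h]

lemma nbrsIn_none {m : ℕ} (S : Set (W m)) :
    nbrsIn (Gr m) none S = ∑ i : Fin m, (ind S (some (i, 0)) + ind S (some (i, 1))) := by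
  classical
  rw [nbrsIn_eq]
  simp [adj, Fin.sum_univ_four]

lemma nbrsIn_some {m : ℕ} (S : Set (W m)) (i : Fin m) (s : Fin 4) :
    nbrsIn (Gr m) (some (i, s)) S = (if s = 0 ∨ s = 1 then ind S none else 0) +
      ∑ t : Fin 4, if tab s t = true then ind S (some (i, t)) else 0 := by
  classical
  rw [nbrsIn_eq, Finset.sum_eq_single i]
  · simp only [adj, true_and]
    congr
  · intro j _ hj
    refine Finset.sum_eq_zero ?_
    intro t _
    simp [adj, Ne.symm hj]
  · intro h; exact absurd (Finset.mem_univ i) h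

lemma nbrsIn_0 {m : ℕ} (S : Set (W m)) (i : Fin m) :
    nbrsIn (Gr m) (some (i, 0)) S = ind S none + (ind S (some (i, 1)) + ind S (some (i, 2)) +
      ind S (some (i, 3))) := by
  rw [nbrsIn_some]; simp [tab, Fin.sum_univ_four]

lemma nbrsIn_1 {m : ℕ} (S : Set (W m)) (i : Fin m) :
    nbrsIn (Gr m) (some (i, 1)) S = ind S none + ind S (some (i, 0)) := by
  rw [nbrsIn_some]; simp [tab, Fin.sum_univ_four]

lemma nbrsIn_2 {m : ℕ} (S : Set (W m)) (i : Fin m) :
    nbrsIn (Gr m) (some (i, 2)) S = ind S (some (i, 0)) + ind S (some (i, 3)) := by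
  rw [nbrsIn_some]; simp [tab, Fin.sum_univ_four]

lemma nbrsIn_3 {m : ℕ} (S : Set (W m)) (i : Fin m) :
    nbrsIn (Gr m) (some (i, 3)) S = ind S (some (i, 0)) + ind S (some (i, 2)) := by
  rw [nbrsIn_some]; simp [tab, Fin.sum_univ_four]

lemma deg_eq {V : Type*} (G : SimpleGraph V) (v : V) : deg G v = nbrsIn G v Set.univ := by
  unfold deg nbrsIn
  simp

lemma deg_none {m : ℕ} : deg (Gr m) none = 2 * m := by
  rw [deg_eq, nbrsIn_none]; simp [ind]; ring

lemma deg_0 {m : ℕ} (i : Fin m) : deg (Gr m) (some (i, 0)) = 4 := by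
  rw [deg_eq, nbrsIn_0]; simp [ind]

lemma deg_1 {m : ℕ} (i : Fin m) : deg (Gr m) (some (i, 1)) = 2 := by
  rw [deg_eq, nbrsIn_1]; simp [ind]

lemma deg_2 {m : ℕ} (i : Fin m) : deg (Gr m) (some (i, 2)) = 2 := by
  rw [deg_eq, nbrsIn_2]; simp [ind]

lemma deg_3 {m : ℕ} (i : Fin m) : deg (Gr m) (some (i, 3)) = 2 := by
  rw [deg_eq, nbrsIn_3]; simp [ind]

/-- Proper 3-colourings in convenient form. -/
structure Proper {m : ℕ} {K : Type*} (c : W m → K) : Prop where
  h01 : ∀ i, c (some (i, 0)) ≠ c (some (i, 1))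
  hv0 : ∀ i, c none ≠ c (some (i, 0))
  hv1 : ∀ i, c none ≠ c (some (i, 1))
  h02 : ∀ i, c (some (i, 0)) ≠ c (some (i, 2))
  h03 : ∀ i, c (some (i, 0)) ≠ c (some (i, 3))
  h23 : ∀ i, c (some (i, 2)) ≠ c (some (i, 3))

lemma ind_eq {m : ℕ} {K : Type*} [DecidableEq K] (c : W m → K) (i : K) (u : W m) :
    ind {u | c u = i} u = if c u = i then 1 else 0 := by
  unfold ind
  by_cases h : c u = i
  · rw [if_pos h, if_pos (show u ∈ {u | c u = i} from h)]
  · rw [if_neg h, if_neg (show u ∉ {u | c u = i} from h)]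

lemma proper_isFAT {m : ℕ} {c : W m → Fin 3} (hc : Proper c) : IsFAT (Gr m) c := by
  refine ⟨1 / 2, by norm_num, by norm_num, ?_⟩
  intro v i
  have key : ∀ (a b p i : Fin 3), a ≠ b → a ≠ p → b ≠ p →
      (((if a = i then 1 else 0) + (if b = i then 1 else 0) : ℕ) = if p = i then 0 else 1) := by
    decide
  have main : (nbrsIn (Gr m) v {u | c u = i} : ℝ) =
      if c v = i then (0 : ℝ) else 1 / 2 * (deg (Gr m) v : ℝ) := by
    rcases v with _ | ⟨j, t⟩
    · rw [nbrsIn_none, deg_none]
      have : ∀ j : Fin m, (ind {u | c u = i} (some (j, 0)) + ind {u | c u = i} (some (j, 1))) =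
          if c none = i then 0 else 1 := by
        intro j
        rw [ind_eq, ind_eq]
        exact key _ _ _ i (hc.h01 j) (hc.hv0 j).symm (hc.hv1 j).symm
      simp only [this]
      split_ifs with h
      · simp
      · simp
    · have ht : t = 0 ∨ t = 1 ∨ t = 2 ∨ t = 3 := by
        have : ∀ t : Fin 4, t = 0 ∨ t = 1 ∨ t = 2 ∨ t = 3 := by decide
        exact this t
      rcases ht with rfl | rfl | rfl | rfl
      · rw [nbrsIn_0, deg_0, ind_eq, ind_eq, ind_eq, ind_eq]
        have k1 := key _ _ _ i (hc.hv1 j) (hc.hv0 j) (hc.h01 j).symm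
        have k2 := key _ _ _ i (hc.h23 j) (hc.h02 j).symm (hc.h03 j).symm
        have : ((if c none = i then 1 else 0) + ((if c (some (j, 1)) = i then 1 else 0) +
          (if c (some (j, 2)) = i then 1 else 0) + (if c (some (j, 3)) = i then 1 else 0)) : ℕ) =
            if c (some (j, 0)) = i then 0 else 2 := by
          split_ifs at k1 k2 ⊢ <;> simp_all
        rw [this]
        split_ifs
        · simp
        · norm_num
      · rw [nbrsIn_1, deg_1, ind_eq, ind_eq, key _ _ _ i (hc.hv0 j) (hc.hv1 j) (hc.h01 j)]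
        split_ifs <;> norm_num
      · rw [nbrsIn_2, deg_2, ind_eq, ind_eq, key _ _ _ i (hc.h03 j) (hc.h02 j) (hc.h23 j).symm]
        split_ifs <;> norm_num
      · rw [nbrsIn_3, deg_3, ind_eq, ind_eq, key _ _ _ i (hc.h02 j) (hc.h03 j) (hc.h23 j)]
        split_ifs <;> norm_num
  rw [main]
  constructor
  · intro h; rw [if_neg h]
  · intro h; rw [if_pos h]; norm_num


lemma top_isFAT (m : ℕ) : IsFATPartition (Gr m) ⊤ := by
  refine ⟨1, fun _ => 0, ⟨0, le_refl _, zero_le_one, ?_⟩, ?_⟩
  · intro v i
    refine ⟨fun h => absurd (Subsingleton.elim _ _) h, fun _ => ?_⟩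
    rw [deg_eq]
    have : {u : W m | (0 : Fin 1) = i} = Set.univ := by
      ext u; simp [Subsingleton.elim (0 : Fin 1) i]
    rw [this]; simp
  · ext u v; simp [Setoid.ker]

lemma two_colours : ∀ a v x p q : Fin 2,
    (if v = x + 1 then 1 else 0) + (if a = x + 1 then 1 else 0) =
      (if a = p + 1 then 1 else 0) + (if q = p + 1 then 1 else 0) →
    (if v = x + 1 then 1 else 0) + (if a = x + 1 then 1 else 0) =
      (if a = q + 1 then 1 else 0) + (if p = q + 1 then 1 else 0) →
    (if v = a + 1 then 1 else 0) + ((if x = a + 1 then 1 else 0) + (if p = a + 1 then 1 else 0) +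
      (if q = a + 1 then 1 else 0)) =
      2 * ((if v = x + 1 then 1 else 0) + (if a = x + 1 then 1 else 0)) →
    (if v = x + 1 then 1 else 0) + (if a = x + 1 then 1 else 0) ≠ 0 → False := by
  decide

lemma three_a : ∀ a v x : Fin 3,
    (∀ i : Fin 3, x ≠ i → (if v = i then 1 else 0) + (if a = i then 1 else 0) ≠ 0) →
    a ≠ x ∧ v ≠ x ∧ v ≠ a := by
  decide

lemma three_b : ∀ a v x p q : Fin 3, v ≠ a → x ≠ a → v ≠ x →
    (∀ i : Fin 3, a ≠ i → (if v = i then 1 else 0) + ((if x = i then 1 else 0) +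
      (if p = i then 1 else 0) + (if q = i then 1 else 0)) = 2) →
    a ≠ p ∧ a ≠ q ∧ p ≠ q := by
  decide

/-- Every FAT colouring induces the trivial partition or is a proper 3-colouring. -/
lemma fat_cases {m : ℕ} {k : ℕ} {c : W m → Fin k} (hc : IsFAT (Gr m) c) (hm : 0 < m) :
    Setoid.ker c = ⊤ ∨ (k = 3 ∧ Proper c) := by
  obtain ⟨α, h0, h1, h⟩ := hc
  by_cases hα : α = 0
  · left
    subst hα
    have hadj : ∀ v u : W m, (Gr m).Adj v u → c v = c u := by
      intro v u huv
      by_contra hne
      have h2 := (h v (c u)).1 hne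
      rw [zero_mul] at h2
      have h3 : nbrsIn (Gr m) v {w | c w = c u} = 0 := by exact_mod_cast h2
      unfold nbrsIn at h3
      rw [Set.ncard_eq_zero (Set.toFinite _)] at h3
      have : u ∈ ({w | (Gr m).Adj v w ∧ w ∈ {w | c w = c u}} : Set (W m)) := ⟨huv, rfl⟩
      rw [h3] at this
      exact this
    have hall : ∀ v : W m, c v = c none := by
      intro v
      rcases v with _ | ⟨j, t⟩
      · rfl
      · have a0 : c (some (j, 0)) = c none := hadj _ _ (Or.inl rfl)
        have a1 : c (some (j, 1)) = c none := hadj _ _ (Or.inr rfl)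
        have a2 : c (some (j, 2)) = c (some (j, 0)) := hadj _ _ ⟨rfl, by decide⟩
        have a3 : c (some (j, 3)) = c (some (j, 0)) := hadj _ _ ⟨rfl, by decide⟩
        have ht : t = 0 ∨ t = 1 ∨ t = 2 ∨ t = 3 := by
          have : ∀ t : Fin 4, t = 0 ∨ t = 1 ∨ t = 2 ∨ t = 3 := by decide
          exact this t
        rcases ht with rfl | rfl | rfl | rfl
        · exact a0
        · exact a1
        · exact a2.trans a0
        · exact a3.trans a0
    ext u v
    simp [Setoid.ker, Function.onFun, hall u, hall v]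
  · have hαpos : 0 < α := lt_of_le_of_ne h0 (Ne.symm hα)
    -- every vertex of gadget `j`, type 1 sees every other colour
    have f1 : ∀ (j : Fin m) (i : Fin k), c (some (j, 1)) ≠ i →
        (((if c none = i then 1 else 0) + (if c (some (j, 0)) = i then 1 else 0) : ℕ) : ℝ)
          = 2 * α := by
      intro j i hi
      have := (h (some (j, 1)) i).1 hi
      rw [nbrsIn_1, deg_1, ind_eq, ind_eq] at this
      rw [this]; push_cast; ring
    have f2 : ∀ (j : Fin m) (i : Fin k), c (some (j, 2)) ≠ i →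
        (((if c (some (j, 0)) = i then 1 else 0) + (if c (some (j, 3)) = i then 1 else 0) : ℕ) : ℝ)
          = 2 * α := by
      intro j i hi
      have := (h (some (j, 2)) i).1 hi
      rw [nbrsIn_2, deg_2, ind_eq, ind_eq] at this
      rw [this]; push_cast; ring
    have f3 : ∀ (j : Fin m) (i : Fin k), c (some (j, 3)) ≠ i →
        (((if c (some (j, 0)) = i then 1 else 0) + (if c (some (j, 2)) = i then 1 else 0) : ℕ) : ℝ)
          = 2 * α := by
      intro j i hi
      have := (h (some (j, 3)) i).1 hi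
      rw [nbrsIn_3, deg_3, ind_eq, ind_eq] at this
      rw [this]; push_cast; ring
    have f0 : ∀ (j : Fin m) (i : Fin k), c (some (j, 0)) ≠ i →
        (((if c none = i then 1 else 0) + ((if c (some (j, 1)) = i then 1 else 0) +
          (if c (some (j, 2)) = i then 1 else 0) + (if c (some (j, 3)) = i then 1 else 0)) : ℕ) : ℝ)
          = 4 * α := by
      intro j i hi
      have := (h (some (j, 0)) i).1 hi
      rw [nbrsIn_0, deg_0, ind_eq, ind_eq, ind_eq, ind_eq] at this
      rw [this]; push_cast; ring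
    let j0 : Fin m := ⟨0, hm⟩
    have hsee : ∀ i : Fin k, i = c (some (j0, 1)) ∨ i = c none ∨ i = c (some (j0, 0)) := by
      intro i
      by_contra hno
      have hno := not_or.mp hno
      have hno2 := not_or.mp hno.2
      have hno : ¬ i = c (some (j0, 1)) ∧ ¬ i = c none ∧ ¬ i = c (some (j0, 0)) :=
        ⟨hno.1, hno2⟩
      have := f1 j0 i (Ne.symm hno.1)
      rw [if_neg (Ne.symm hno.2.1), if_neg (Ne.symm hno.2.2)] at this
      simp at this
      exact hα this
    have hk3 : k ≤ 3 := by
      have : (Finset.univ : Finset (Fin k)) ⊆ {c (some (j0, 1)), c none, c (some (j0, 0))} := by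
        intro i _
        simpa using hsee i
      have h2 := Finset.card_le_card this
      rw [Finset.card_univ, Fintype.card_fin] at h2
      exact h2.trans Finset.card_le_three
    interval_cases k
    · exact (c none).elim0
    · left
      ext u v
      simp [Setoid.ker, Function.onFun, Subsingleton.elim (c u) (c v)]
    · exfalso
      have hne : ∀ x : Fin 2, x ≠ x + 1 := by decide
      have g1 := f1 j0 _ (hne (c (some (j0, 1))))
      have g2 := f2 j0 _ (hne (c (some (j0, 2))))
      have g3 := f3 j0 _ (hne (c (some (j0, 3))))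
      have g0 := f0 j0 _ (hne (c (some (j0, 0))))
      refine two_colours (c (some (j0, 0))) (c none) (c (some (j0, 1))) (c (some (j0, 2)))
        (c (some (j0, 3))) ?_ ?_ ?_ ?_
      · exact_mod_cast g1.trans g2.symm
      · exact_mod_cast g1.trans g3.symm
      · have : (((if c none = c (some (j0, 0)) + 1 then 1 else 0) +
          ((if c (some (j0, 1)) = c (some (j0, 0)) + 1 then 1 else 0) +
          (if c (some (j0, 2)) = c (some (j0, 0)) + 1 then 1 else 0) +
          (if c (some (j0, 3)) = c (some (j0, 0)) + 1 then 1 else 0)) : ℕ) : ℝ) =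
          ((2 * ((if c none = c (some (j0, 1)) + 1 then 1 else 0) +
            (if c (some (j0, 0)) = c (some (j0, 1)) + 1 then 1 else 0)) : ℕ) : ℝ) := by
          rw [g0, Nat.cast_mul, g1]; push_cast; ring
        exact_mod_cast this
      · intro h0
        rw [h0] at g1
        simp at g1
        exact hα g1
    · right
      refine ⟨rfl, ?_⟩
      have s1 : ∀ j : Fin m, c (some (j, 0)) ≠ c (some (j, 1)) ∧ c none ≠ c (some (j, 1)) ∧
          c none ≠ c (some (j, 0)) := by
        intro j
        refine three_a _ _ _ ?_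
        intro i hi h0
        have g1 := f1 j i hi
        rw [h0] at g1
        simp at g1
        exact hα g1
      have hα2 : 2 * α = 1 := by
        have := f1 j0 (c none) (s1 j0).2.1.symm
        rw [if_pos rfl, if_neg (s1 j0).2.2.symm] at this
        rw [← this]; norm_num
      have s2 : ∀ j : Fin m, c (some (j, 0)) ≠ c (some (j, 2)) ∧
          c (some (j, 0)) ≠ c (some (j, 3)) ∧ c (some (j, 2)) ≠ c (some (j, 3)) := by
        intro j
        refine three_b _ _ _ _ _ (s1 j).2.2 (s1 j).1.symm (s1 j).2.1 ?_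
        intro i hi
        have g0 := f0 j i hi
        have : 4 * α = ((2 : ℕ) : ℝ) := by
          push_cast; linarith
        rw [this] at g0
        exact_mod_cast g0
      exact ⟨fun j => (s1 j).1, fun j => (s1 j).2.2, fun j => (s1 j).2.1, fun j => (s2 j).1,
        fun j => (s2 j).2.1, fun j => (s2 j).2.2⟩


lemma fin3_cases : ∀ a b d x : Fin 3, a ≠ b → a ≠ d → b ≠ d → x = a ∨ x = b ∨ x = d := by
  decide

lemma proper_irreducible {m : ℕ} (hm : 0 < m) {c : W m → Fin 3} (hc : Proper c) :
    IsIrreducible (Gr m) (Setoid.ker c) := by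
  refine ⟨⟨3, c, proper_isFAT hc, rfl⟩, ?_⟩
  rintro Q ⟨k, c', hF, rfl⟩ hle
  have hle' : ∀ u w, c' u = c' w → c u = c w := fun u w h => hle h
  rcases fat_cases hF hm with htop | ⟨rfl, hc'⟩
  · exfalso
    have : (Setoid.ker c') none (some (⟨0, hm⟩, 0)) := by rw [htop]; trivial
    exact hc.hv0 ⟨0, hm⟩ (hle' _ _ this)
  · refine le_antisymm hle ?_
    let j0 : Fin m := ⟨0, hm⟩
    have hrep : ∀ u, ∃ s, (s = none ∨ s = some (j0, 0) ∨ s = some (j0, 1)) ∧ c' u = c' s := by
      intro u
      rcases fin3_cases _ _ _ (c' u) (hc'.hv0 j0) (hc'.hv1 j0) (hc'.h01 j0) with h | h | h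
      · exact ⟨_, Or.inl rfl, h⟩
      · exact ⟨_, Or.inr (Or.inl rfl), h⟩
      · exact ⟨_, Or.inr (Or.inr rfl), h⟩
    intro u w huw
    have huw' : c u = c w := huw
    obtain ⟨s, hs, hus⟩ := hrep u
    obtain ⟨t, ht, hwt⟩ := hrep w
    have e1 := hle' _ _ hus
    have e2 := hle' _ _ hwt
    have e3 : c s = c t := by rw [← e1, ← e2, huw']
    have e4 : s = t := by
      rcases hs with rfl | rfl | rfl <;> rcases ht with rfl | rfl | rfl
      · rfl
      · exact absurd e3 (hc.hv0 j0)
      · exact absurd e3 (hc.hv1 j0)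
      · exact absurd e3.symm (hc.hv0 j0)
      · rfl
      · exact absurd e3 (hc.h01 j0)
      · exact absurd e3.symm (hc.hv1 j0)
      · exact absurd e3.symm (hc.h01 j0)
      · rfl
    show c' u = c' w
    rw [hus, hwt, e4]

/-- The standard colourings. -/
def std (m j : ℕ) : W m → Fin 3
  | none => 0
  | some (i, t) => (![if i.val < j then 1 else 2, if i.val < j then 2 else 1, 0,
      if i.val < j then 2 else 1] : Fin 4 → Fin 3) t

lemma std_proper (m j : ℕ) : Proper (std m j) := by
  constructor <;> intro i <;> by_cases h : i.val < j <;> simp [std, h]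

lemma exists_proper_of_irreducible {m : ℕ} (hm : 0 < m) {P : Setoid (W m)}
    (hP : IsIrreducible (Gr m) P) : ∃ c : W m → Fin 3, Proper c ∧ Setoid.ker c = P := by
  obtain ⟨⟨k, c, hF, rfl⟩, hmax⟩ := hP
  rcases fat_cases hF hm with htop | ⟨rfl, hc⟩
  · exfalso
    have h1 := hmax (Setoid.ker (std m 0)) (proper_irreducible hm (std_proper m 0)).1
      (by rw [htop]; exact le_top)
    have : (Setoid.ker (std m 0)) none (some (⟨0, hm⟩, 0)) := by rw [h1, htop]; trivial
    exact (std_proper m 0).hv0 ⟨0, hm⟩ this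
  · exact ⟨c, hc, rfl⟩

/-- Automorphisms permuting gadgets and possibly swapping the two outer vertices. -/
def aut {m : ℕ} (π : Equiv.Perm (Fin m)) (s : Fin m → Prop) [DecidablePred s] :
    Gr m ≃g Gr m where
  toEquiv := Equiv.optionCongr (Equiv.prodShear π
    (fun i => if s i then Equiv.swap (2 : Fin 4) 3 else Equiv.refl _))
  map_rel_iff' := by
    have h1 : ∀ t : Fin 4, ((Equiv.swap (2 : Fin 4) 3) t = 0 ∨ (Equiv.swap (2 : Fin 4) 3) t = 1) ↔
        (t = 0 ∨ t = 1) := by decide
    have h2 : ∀ t u : Fin 4, tab ((Equiv.swap (2 : Fin 4) 3) t) ((Equiv.swap (2 : Fin 4) 3) u) =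
        tab t u := by decide
    intro u v
    rcases u with _ | ⟨i, t⟩ <;> rcases v with _ | ⟨j, t'⟩
    · exact Iff.rfl
    · by_cases hs : s j
      · simp [Gr, adj, hs]
        exact h1 t'
      · simp [Gr, adj, hs]
    · by_cases hs : s i
      · simp [Gr, adj, hs]
        exact h1 t
      · simp [Gr, adj, hs]
    · by_cases hij : i = j
      · subst hij
        by_cases hs : s i
        · simp [Gr, adj, hs, h2]
        · simp [Gr, adj, hs]
      · simp [Gr, adj, hij]

lemma gadget_table : ∀ a x p q : Fin 3, a ≠ 0 → x ≠ 0 → a ≠ x → a ≠ p → a ≠ q → p ≠ q →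
    ∀ t : Fin 4, (![if a = 1 then 1 else 2, if a = 1 then 2 else 1, 0,
      if a = 1 then 2 else 1] : Fin 4 → Fin 3)
        ((if p ≠ 0 then Equiv.swap (2 : Fin 4) 3 else Equiv.refl _ : Equiv.Perm (Fin 4)) t) =
        (![a, x, p, q] : Fin 4 → Fin 3) t := by
  decide

lemma exists_normalise : ∀ a b : Fin 3, a ≠ b → ∃ τ : Equiv.Perm (Fin 3), τ a = 0 ∧ τ b = 1 := by
  decide

lemma exists_third : ∀ a : Fin 3, ∃ b d : Fin 3, a ≠ b ∧ a ≠ d ∧ b ≠ d := by
  decide

lemma normal_form {b : ℕ} (hb : 0 < b) {c : W (2 * b - 1) → Fin 3} (hc : Proper c) :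
    ∃ j < b, ∃ σ : Gr (2 * b - 1) ≃g Gr (2 * b - 1),
      ∀ u w, c u = c w ↔ std (2 * b - 1) j (σ u) = std (2 * b - 1) j (σ w) := by
  classical
  -- a colour used by few vertices of type `0`
  obtain ⟨γ, hγ, hcard⟩ : ∃ γ : Fin 3, c none ≠ γ ∧
      (Finset.univ.filter (fun i => c (some (i, 0)) = γ)).card < b := by
    obtain ⟨γ, δ, h1, h2, h3⟩ := exists_third (c none)
    by_contra hno
    have hno : ∀ γ : Fin 3, c none ≠ γ →
        b ≤ (Finset.univ.filter (fun i => c (some (i, 0)) = γ)).card := by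
      intro γ hγ
      by_contra hlt
      exact hno ⟨γ, hγ, not_le.mp hlt⟩
    have a1 := hno γ h1
    have a2 := hno δ h2
    have hdisj : Disjoint (Finset.univ.filter (fun i => c (some (i, 0)) = γ))
        (Finset.univ.filter (fun i => c (some (i, 0)) = δ)) := by
      rw [Finset.disjoint_left]
      intro i hi hi'
      exact h3 ((Finset.mem_filter.mp hi).2.symm.trans (Finset.mem_filter.mp hi').2)
    have := Finset.card_le_univ ((Finset.univ.filter (fun i => c (some (i, 0)) = γ)) ∪
      (Finset.univ.filter (fun i => c (some (i, 0)) = δ)))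
    rw [Finset.card_union_of_disjoint hdisj, Fintype.card_fin] at this
    omega
  obtain ⟨τ, hτ0, hτ1⟩ := exists_normalise _ _ hγ
  have hτ : ∀ i, c (some (i, 0)) = γ ↔ τ (c (some (i, 0))) = 1 := by
    intro i
    rw [← hτ1]
    exact τ.injective.eq_iff.symm
  let j := (Finset.univ.filter (fun i : Fin (2 * b - 1) => c (some (i, 0)) = γ)).card
  have hjm : j ≤ 2 * b - 1 := by omega
  -- the permutation
  have hcard2 : Fintype.card {i : Fin (2 * b - 1) // c (some (i, 0)) = γ} =
      Fintype.card {i : Fin (2 * b - 1) // i.val < j} := by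
    rw [Fintype.card_subtype, Fintype.card_subtype]
    show j = _
    rw [Fin.card_filter_val_lt]
    omega
  let e := Fintype.equivOfCardEq hcard2
  let π : Equiv.Perm (Fin (2 * b - 1)) := e.extendSubtype
  have hπ : ∀ i, (π i).val < j ↔ τ (c (some (i, 0))) = 1 := by
    intro i
    rw [← hτ i]
    constructor
    · intro h
      by_contra hne
      exact Equiv.extendSubtype_not_mem e i hne h
    · intro h
      exact Equiv.extendSubtype_mem e i h
  refine ⟨j, hcard, aut π (fun i => τ (c (some (i, 2))) ≠ 0), ?_⟩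
  have key : ∀ u, std (2 * b - 1) j (aut π (fun i => τ (c (some (i, 2))) ≠ 0) u) = τ (c u) := by
    intro u
    rcases u with _ | ⟨i, t⟩
    · exact hτ0.symm
    · have hinj : ∀ {u v : W (2 * b - 1)}, c u ≠ c v → τ (c u) ≠ τ (c v) :=
        fun h h' => h (τ.injective h')
      have h := gadget_table (τ (c (some (i, 0)))) (τ (c (some (i, 1)))) (τ (c (some (i, 2))))
        (τ (c (some (i, 3)))) (by rw [← hτ0]; exact (hinj (hc.hv0 i)).symm)
        (by rw [← hτ0]; exact (hinj (hc.hv1 i)).symm) (hinj (hc.h01 i)) (hinj (hc.h02 i))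
        (hinj (hc.h03 i)) (hinj (hc.h23 i)) t
      have e1 : (aut π (fun i => τ (c (some (i, 2))) ≠ 0)) (some (i, t)) =
        some (π i, ((if τ (c (some (i, 2))) ≠ 0 then Equiv.swap (2 : Fin 4) 3
          else Equiv.refl _ : Equiv.Perm (Fin 4)) t)) := rfl
      rw [e1]
      have e2 : ∀ t', std (2 * b - 1) j (some (π i, t')) =
        (![if τ (c (some (i, 0))) = 1 then 1 else 2, if τ (c (some (i, 0))) = 1 then 2 else 1, 0,
          if τ (c (some (i, 0))) = 1 then 2 else 1] : Fin 4 → Fin 3) t' := by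
        intro t'
        simp only [std, hπ i]
      rw [e2, h]
      have ht : t = 0 ∨ t = 1 ∨ t = 2 ∨ t = 3 := by
        have : ∀ t : Fin 4, t = 0 ∨ t = 1 ∨ t = 2 ∨ t = 3 := by decide
        exact this t
      rcases ht with rfl | rfl | rfl | rfl <;> rfl
  intro u w
  rw [key, key]
  exact τ.injective.eq_iff.symm

lemma std_distinct {b j j' : ℕ} (hj : j < b) (hj' : j' < b)
    (σ : Gr (2 * b - 1) ≃g Gr (2 * b - 1))
    (h : ∀ u w, std (2 * b - 1) j u = std (2 * b - 1) j w ↔
      std (2 * b - 1) j' (σ u) = std (2 * b - 1) j' (σ w)) : j = j' := by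
  classical
  have hdeg : ∀ u, deg (Gr (2 * b - 1)) (σ u) = deg (Gr (2 * b - 1)) u := by
    intro u
    unfold deg
    rw [← Set.ncard_image_of_injective {w | (Gr (2 * b - 1)).Adj u w} σ.injective]
    congr 1
    ext w
    constructor
    · intro hw
      refine ⟨σ.symm w, ?_, by simp⟩
      have : (Gr (2 * b - 1)).Adj (σ u) (σ (σ.symm w)) := by simpa using hw
      exact σ.map_adj_iff.mp this
    · rintro ⟨x, hx, rfl⟩
      exact σ.map_adj_iff.mpr hx
  have h4 : ∀ u : W (2 * b - 1), deg (Gr (2 * b - 1)) u = 4 → ∃ i, u = some (i, 0) := by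
    intro u hu
    rcases u with _ | ⟨i, t⟩
    · rw [deg_none] at hu
      omega
    · have ht : t = 0 ∨ t = 1 ∨ t = 2 ∨ t = 3 := by
        have : ∀ t : Fin 4, t = 0 ∨ t = 1 ∨ t = 2 ∨ t = 3 := by decide
        exact this t
      rcases ht with rfl | rfl | rfl | rfl
      · exact ⟨i, rfl⟩
      · rw [deg_1] at hu; omega
      · rw [deg_2] at hu; omega
      · rw [deg_3] at hu; omega
  have hρ : ∀ i, ∃ i', σ (some (i, 0)) = some (i', 0) := by
    intro i
    apply h4
    rw [hdeg, deg_0]
  choose ρ hρ using hρ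
  have hρinj : Function.Injective ρ := by
    intro i i' hii
    have : σ (some (i, 0)) = σ (some (i', 0)) := by rw [hρ, hρ, hii]
    have := σ.injective this
    simpa using this
  have hρbij : Function.Bijective ρ := Finite.injective_iff_bijective.mp hρinj
  have hrel : ∀ i i' : Fin (2 * b - 1), ((i.val < j ↔ i'.val < j) ↔
      ((ρ i).val < j' ↔ (ρ i').val < j')) := by
    intro i i'
    have h1 := h (some (i, 0)) (some (i', 0))
    rw [hρ, hρ] at h1
    have h2 : ∀ (J : ℕ) (x y : Fin (2 * b - 1)), (std (2 * b - 1) J (some (x, 0)) =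
        std (2 * b - 1) J (some (y, 0))) ↔ (x.val < J ↔ y.val < J) := by
      intro J x y
      by_cases hx : x.val < J <;> by_cases hy : y.val < J <;> simp [std, hx, hy]
    rw [h2, h2] at h1
    exact h1
  have hcA : (Finset.univ.filter (fun i : Fin (2 * b - 1) => i.val < j)).card = j := by
    rw [Fin.card_filter_val_lt]; omega
  have hcB : (Finset.univ.filter (fun i : Fin (2 * b - 1) => (ρ i).val < j')).card = j' := by
    have : (Finset.univ.filter (fun i : Fin (2 * b - 1) => (ρ i).val < j')).card =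
      (Finset.univ.filter (fun i : Fin (2 * b - 1) => i.val < j')).card := by
      refine Finset.card_bij (fun i _ => ρ i) ?_ ?_ ?_
      · intro i hi; simpa using hi
      · intro i _ i' _ hh; exact hρinj hh
      · intro i hi
        obtain ⟨i', rfl⟩ := hρbij.2 i
        exact ⟨i', by simpa using hi, rfl⟩
    rw [this, Fin.card_filter_val_lt]; omega
  have hm : 0 < 2 * b - 1 := by omega
  let z : Fin (2 * b - 1) := ⟨0, hm⟩
  by_cases hz : (z.val < j ↔ (ρ z).val < j')
  · have : ∀ i : Fin (2 * b - 1), i.val < j ↔ (ρ i).val < j' := by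
      intro i
      have := hrel z i
      tauto
    rw [← hcA, ← hcB]
    congr 1
    ext i
    simp [this i]
  · exfalso
    have : ∀ i : Fin (2 * b - 1), i.val < j ↔ ¬ (ρ i).val < j' := by
      intro i
      have := hrel z i
      tauto
    have hAB : (Finset.univ.filter (fun i : Fin (2 * b - 1) => i.val < j)) =
        (Finset.univ.filter (fun i : Fin (2 * b - 1) => ¬ (ρ i).val < j')) := by
      ext i; simp only [Finset.mem_filter, Finset.mem_univ, true_and]; exact this i
    have h5 := Finset.card_filter_add_card_filter_not (s := (Finset.univ : Finset (Fin (2 * b - 1))))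
      (fun i => (ρ i).val < j')
    rw [← hAB, hcA, hcB, Finset.card_univ, Fintype.card_fin] at h5
    omega

lemma connected {m : ℕ} : (Gr m).Connected := by
  have hr : ∀ u : W m, (Gr m).Reachable none u := by
    intro u
    rcases u with _ | ⟨i, t⟩
    · exact SimpleGraph.Reachable.refl _
    · have a0 : (Gr m).Adj none (some (i, 0)) := Or.inl rfl
      have a1 : (Gr m).Adj none (some (i, 1)) := Or.inr rfl
      have a2 : (Gr m).Adj (some (i, 0)) (some (i, 2)) := ⟨rfl, by decide⟩
      have a3 : (Gr m).Adj (some (i, 0)) (some (i, 3)) := ⟨rfl, by decide⟩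
      have ht : t = 0 ∨ t = 1 ∨ t = 2 ∨ t = 3 := by
        have : ∀ t : Fin 4, t = 0 ∨ t = 1 ∨ t = 2 ∨ t = 3 := by decide
        exact this t
      rcases ht with rfl | rfl | rfl | rfl
      · exact a0.reachable
      · exact a1.reachable
      · exact a0.reachable.trans a2.reachable
      · exact a0.reachable.trans a3.reachable
  exact { preconnected := fun u v => (hr u).symm.trans (hr v), nonempty := ⟨none⟩ }

/-- For every positive `b` some finite connected simple graph has exactly `b` irreducible FAT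
colourings. -/
theorem result (b : ℕ) (hb : 0 < b) :
    ∃ (V : Type) (_ : Fintype V) (G : SimpleGraph V), G.Connected ∧ numIrreducible G = b := by
  have hm : 0 < 2 * b - 1 := by omega
  refine ⟨W (2 * b - 1), inferInstance, Gr (2 * b - 1), connected, ?_⟩
  let F : Fin b → Quotient (orbitSetoid (Gr (2 * b - 1))) := fun j =>
    Quotient.mk _ ⟨Setoid.ker (std (2 * b - 1) j.val),
      proper_irreducible hm (std_proper (2 * b - 1) j.val)⟩
  have hF : Function.Bijective F := by
    constructor
    · intro j j' hjj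
      obtain ⟨σ, hσ⟩ := Quotient.exact hjj
      exact Fin.ext (std_distinct j.2 j'.2 σ hσ)
    · intro q
      obtain ⟨⟨P, hP⟩, rfl⟩ := Quotient.exists_rep q
      obtain ⟨c, hc, hcP⟩ := exists_proper_of_irreducible hm hP
      subst hcP
      obtain ⟨j, hj, σ, hσ⟩ := normal_form hb hc
      refine ⟨⟨j, hj⟩, ?_⟩
      refine Eq.symm (Quotient.sound ?_)
      exact ⟨σ, hσ⟩
  unfold numIrreducible
  rw [← Nat.card_eq_of_bijective F hF, Nat.card_fin]

end Pool.Agent.Results.MP_48b99b_co.EveryCountAttained
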